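import Pool.Agent.MP_3f311b_co.Data

set_option autoImplicit false

namespace Pool.Agent.MP_3f311b_co

/-- Each row of the facet table is a supporting hyperplane with the recorded vertex set. -/
theorem facet_check : ∀ f ∈ facetTab, ∀ i : Fin 16,
    (∑ j, f.1 j * X i j ≤ f.2.1) ∧
    (f.2.2.testBit i.val = true ↔ ∑ j, f.1 j * X i j = f.2.1) := by
  decide +kernel

theorem rule_check : ∀ w ∈ ruleTab,
    (∑ i, w.2 i = 0) ∧ (∀ j : Fin 5, ∑ i, w.2 i * X i j = 0) ∧
    (∀ i : Fin 16, (0 < w.2 i → w.1.testBit i.val = true) ∧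
      (w.1.testBit i.val = false → w.2 i < 0)) := by
  decide +kernel

theorem hrule_check : ∀ w ∈ hruleTab,
    (∑ i, w.2.2 i = 0) ∧ (∀ j : Fin 5, ∑ i, w.2.2 i * X i j = 0) ∧
    (∀ i : Fin 16, (0 < w.2.2 i → w.1.testBit i.val = true) ∧
      (w.2.1.testBit i.val = true → w.1.testBit i.val = false → w.2.2 i < 0)) := by
  decide +kernel

/-- The list of facet masks. -/
def masks : List ℕ := facetTab.map (fun f => f.2.2)

/-- Invariance of the facet list under a permutation of the labels. -/
def Inv (p : Fin 16 → Fin 16) : Prop :=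
  ∀ F ∈ masks, ∃ F' ∈ masks, ∀ i : Fin 16, F'.testBit (p i).val = F.testBit i.val

instance (p : Fin 16 → Fin 16) : Decidable (Inv p) := by
  unfold Inv; infer_instance

theorem inv_r : Inv rF := by decide +kernel
theorem inv_r' : Inv rG := by decide +kernel
theorem inv_s : Inv sF := by decide +kernel
theorem inv_t : Inv tF := by decide +kernel

/-- `a` is a sub-mask of `b`. -/
def sub (a b : ℕ) : Bool := (a &&& b) == a

/-- Intersection of all facets containing `m`. -/
def closure (m : ℕ) : ℕ := masks.foldl (fun acc F => if sub m F then acc &&& F else acc) 65535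

def badM (m : ℕ) : Bool := ruleTab.any (fun w => sub w.1 m)

def leaf (m : ℕ) : Bool :=
  hruleTab.any (fun w => sub w.1 m && !(sub w.2.1 m)) || (closure m == m)

def dfs : ℕ → ℕ → Bool
  | 0, m => badM m || leaf m
  | k+1, m => badM m || (dfs k m && dfs k (m ||| (1 <<< k)))

theorem dfs_check : dfs 16 0 = true := by decide +kernel

end Pool.Agent.MP_3f311b_co
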