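import Mathlib

set_option autoImplicit false

namespace Pool.Agent.MP_3f311b_co

def v5 (a b c d e : ℤ) : Fin 5 → ℤ := ![a, b, c, d, e]

def v16 (a b c d e f g h i j k l m n o p : ℤ) : Fin 16 → ℤ :=
  ![a, b, c, d, e, f, g, h, i, j, k, l, m, n, o, p]

/-- Integer coordinates of the 16 vertices `r^k s^j v` (index `k + 8 j`). -/
def X : Fin 16 → Fin 5 → ℤ :=
  ![v5 1 2 0 1 1,
    v5 (-1) 1 2 0 1,
    v5 0 (-1) 1 2 1,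
    v5 (-2) 0 (-1) 1 1,
    v5 (-1) (-2) 0 (-1) 1,
    v5 1 (-1) (-2) 0 1,
    v5 0 1 (-1) (-2) 1,
    v5 2 0 1 (-1) 1,
    v5 1 1 0 2 (-1),
    v5 (-2) 1 1 0 (-1),
    v5 0 (-2) 1 1 (-1),
    v5 (-1) 0 (-2) 1 (-1),
    v5 (-1) (-1) 0 (-2) (-1),
    v5 2 (-1) (-1) 0 (-1),
    v5 0 2 (-1) (-1) (-1),
    v5 1 0 2 (-1) (-1)]

/-- The 98 facets: outer normal, offset, and bit mask of the vertex set. -/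
def facetTab : List ((Fin 5 → ℤ) × ℤ × ℕ) :=
  [(v5 0 0 0 0 1, 1, 255),
   (v5 (-5) 6 3 10 2, 19, 271),
   (v5 2 1 (-8) 13 6, 23, 301),
   (v5 (-10) (-5) 6 3 2, 19, 542),
   (v5 (-13) 2 1 (-8) 6, 23, 602),
   (v5 (-4) 5 2 7 1, 14, 779),
   (v5 (-5) 5 3 9 1, 17, 782),
   (v5 (-3) (-10) (-5) 6 2, 19, 1084),
   (v5 8 (-13) 2 1 6, 23, 1204),
   (v5 (-7) (-4) 5 2 1, 14, 1558),
   (v5 (-9) (-5) 5 3 1, 17, 1564),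
   (v5 (-1) 1 7 5 (-3), 13, 1798),
   (v5 (-1) 8 (-13) 2 6, 23, 2153),
   (v5 (-6) (-3) (-10) (-5) 2, 19, 2168),
   (v5 1 1 (-5) 7 3, 13, 2345),
   (v5 1 0 (-5) 8 3, 14, 2348),
   (v5 (-4) 7 (-2) 5 (-1), 14, 2825),
   (v5 (-5) 0 1 8 (-3), 14, 2828),
   (v5 (-2) (-7) (-4) 5 1, 14, 3116),
   (v5 (-3) (-9) (-5) 5 1, 17, 3128),
   (v5 (-5) (-1) 1 7 (-3), 13, 3596),
   (v5 (-8) (-1) 2 13 (-6), 23, 3844),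
   (v5 (-2) (-1) 8 (-13) 6, 23, 4306),
   (v5 5 (-6) (-3) (-10) 2, 19, 4336),
   (v5 (-7) 1 1 (-5) 3, 13, 4690),
   (v5 (-8) 1 0 (-5) 3, 14, 4696),
   (v5 (-5) (-4) 7 (-2) (-1), 14, 5650),
   (v5 (-8) (-5) 0 1 (-3), 14, 5656),
   (v5 (-5) (-2) (-7) (-4) 1, 14, 6232),
   (v5 (-5) (-3) (-9) (-5) 1, 17, 6256),
   (v5 (-7) (-5) (-1) 1 (-3), 13, 7192),
   (v5 (-13) (-8) (-1) 2 (-6), 23, 7688),
   (v5 13 (-2) (-1) 8 6, 23, 8357),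
   (v5 10 5 (-6) (-3) 2, 19, 8417),
   (v5 7 (-1) (-1) 5 3, 13, 8485),
   (v5 8 (-1) 0 5 3, 14, 8581),
   (v5 5 (-7) 1 1 3, 13, 9380),
   (v5 5 (-8) 1 0 3, 14, 9392),
   (v5 9 (-3) 5 5 (-1), 17, 9604),
   (v5 3 (-5) (-5) 9 (-1), 17, 10532),
   (v5 2 (-5) (-4) 7 (-1), 14, 11300),
   (v5 (-1) (-8) (-5) 0 (-3), 14, 11312),
   (v5 3 (-6) (-5) 10 (-2), 19, 11524),
   (v5 4 (-5) (-2) (-7) 1, 14, 12464),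
   (v5 5 (-5) (-3) (-9) 1, 17, 12512),
   (v5 (-1) (-7) (-5) (-1) (-3), 13, 14384),
   (v5 (-2) (-13) (-8) (-1) (-6), 23, 15376),
   (v5 (-8) 13 (-2) (-1) 6, 23, 16459),
   (v5 3 10 5 (-6) 2, 19, 16579),
   (v5 (-5) 8 (-1) 0 3, 14, 16907),
   (v5 (-5) 7 (-1) (-1) 3, 13, 16970),
   (v5 (-1) 5 (-7) 1 3, 13, 18505),
   (v5 0 5 (-8) 1 3, 14, 18529),
   (v5 5 5 (-9) 3 (-1), 17, 18721),
   (v5 (-5) 9 (-3) 5 (-1), 17, 18953),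
   (v5 (-5) 10 (-3) 6 (-2), 19, 19201),
   (v5 (-9) 3 (-5) (-5) (-1), 17, 21064),
   (v5 (-7) 2 (-5) (-4) (-1), 14, 22600),
   (v5 0 (-1) (-8) (-5) (-3), 14, 22624),
   (v5 (-10) 3 (-6) (-5) (-2), 19, 23048),
   (v5 7 4 (-5) (-2) 1, 14, 24673),
   (v5 9 5 (-5) (-3) 1, 17, 24769),
   (v5 5 4 (-7) 2 (-1), 14, 24865),
   (v5 8 5 0 (-1) (-3), 14, 24961),
   (v5 6 5 (-10) 3 (-2), 19, 26912),
   (v5 1 (-1) (-7) (-5) (-3), 13, 28768),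
   (v5 1 (-2) (-13) (-8) (-6), 23, 30752),
   (v5 6 3 10 5 2, 19, 32903),
   (v5 1 (-8) 13 (-2) 6, 23, 32918),
   (v5 5 3 9 5 1, 17, 33031),
   (v5 5 2 7 4 1, 14, 33157),
   (v5 1 7 5 1 (-3), 13, 33539),
   (v5 0 (-5) 8 (-1) 3, 14, 33814),
   (v5 1 (-5) 7 (-1) 3, 13, 33940),
   (v5 0 1 8 5 (-3), 14, 34054),
   (v5 7 (-2) 5 4 (-1), 14, 34180),
   (v5 (-1) 2 13 8 (-6), 23, 34562),
   (v5 (-1) (-1) 5 (-7) 3, 13, 37010),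
   (v5 (-1) 0 5 (-8) 3, 14, 37058),
   (v5 (-3) 5 5 (-9) (-1), 17, 37442),
   (v5 (-5) (-5) 9 (-3) (-1), 17, 37906),
   (v5 (-6) (-5) 10 (-3) (-2), 19, 38402),
   (v5 5 (-9) 3 (-5) (-1), 17, 42128),
   (v5 10 (-3) 6 5 (-2), 19, 42368),
   (v5 4 (-7) 2 (-5) (-1), 14, 45200),
   (v5 5 0 (-1) (-8) (-3), 14, 45248),
   (v5 5 (-10) 3 (-6) (-2), 19, 46096),
   (v5 3 9 5 (-5) 1, 17, 49283),
   (v5 2 7 4 (-5) 1, 14, 49346),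
   (v5 7 5 1 (-1) (-3), 13, 49537),
   (v5 1 8 5 0 (-3), 14, 49667),
   (v5 (-2) 5 4 (-7) (-1), 14, 49730),
   (v5 2 13 8 1 (-6), 23, 49921),
   (v5 (-3) 6 5 (-10) (-2), 19, 53824),
   (v5 5 1 (-1) (-7) (-3), 13, 57536),
   (v5 13 8 1 (-2) (-6), 23, 57728),
   (v5 8 1 (-2) (-13) (-6), 23, 61504),
   (v5 0 0 0 0 (-1), 1, 65280)]

/-- Relations showing that a facial set containing the positive support is everything. -/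
def ruleTab : List (ℕ × (Fin 16 → ℤ)) :=
  [(272, v16 (-1) (-1) (-5) (-1) 13 (-3) (-1) (-1) 13 (-1) (-5) (-3) (-1) (-1) (-1) (-1)),
   (544, v16 (-1) (-1) (-1) (-5) (-1) 13 (-3) (-1) (-1) 13 (-1) (-5) (-3) (-1) (-1) (-1)),
   (1088, v16 (-1) (-1) (-1) (-1) (-5) (-1) 13 (-3) (-1) (-1) 13 (-1) (-5) (-3) (-1) (-1)),
   (2176, v16 (-3) (-1) (-1) (-1) (-1) (-5) (-1) 13 (-1) (-1) (-1) 13 (-1) (-5) (-3) (-1)),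
   (4097, v16 13 (-3) (-1) (-1) (-1) (-1) (-5) (-1) (-1) (-1) (-1) (-1) 13 (-1) (-5) (-3)),
   (8194, v16 (-1) 13 (-3) (-1) (-1) (-1) (-1) (-5) (-3) (-1) (-1) (-1) (-1) 13 (-1) (-5)),
   (16388, v16 (-5) (-1) 13 (-3) (-1) (-1) (-1) (-1) (-5) (-3) (-1) (-1) (-1) (-1) 13 (-1)),
   (32776, v16 (-1) (-5) (-1) 13 (-3) (-1) (-1) (-1) (-1) (-5) (-3) (-1) (-1) (-1) (-1) 13),
   (320, v16 (-17) (-1) (-1) (-1) (-1) (-5) 27 (-1) 27 (-1) (-1) (-1) (-1) (-5) (-17) (-1)),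
   (640, v16 (-1) (-17) (-1) (-1) (-1) (-1) (-5) 27 (-1) 27 (-1) (-1) (-1) (-1) (-5) (-17)),
   (1025, v16 27 (-1) (-17) (-1) (-1) (-1) (-1) (-5) (-17) (-1) 27 (-1) (-1) (-1) (-1) (-5)),
   (2050, v16 (-5) 27 (-1) (-17) (-1) (-1) (-1) (-1) (-5) (-17) (-1) 27 (-1) (-1) (-1) (-1)),
   (4100, v16 (-1) (-5) 27 (-1) (-17) (-1) (-1) (-1) (-1) (-5) (-17) (-1) 27 (-1) (-1) (-1)),
   (8200, v16 (-1) (-1) (-5) 27 (-1) (-17) (-1) (-1) (-1) (-1) (-5) (-17) (-1) 27 (-1) (-1)),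
   (16400, v16 (-1) (-1) (-1) (-5) 27 (-1) (-17) (-1) (-1) (-1) (-1) (-5) (-17) (-1) 27 (-1)),
   (32800, v16 (-1) (-1) (-1) (-1) (-5) 27 (-1) (-17) (-1) (-1) (-1) (-1) (-5) (-17) (-1) 27),
   (386, v16 (-169) 111 (-73) (-1) (-1) (-1) (-1) 135 151 (-1) (-1) (-1) (-1) (-1) (-1) (-145)),
   (517, v16 135 (-169) 111 (-73) (-1) (-1) (-1) (-1) (-145) 151 (-1) (-1) (-1) (-1) (-1) (-1)),
   (1034, v16 (-1) 135 (-169) 111 (-73) (-1) (-1) (-1) (-1) (-145) 151 (-1) (-1) (-1) (-1) (-1)),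
   (2068, v16 (-1) (-1) 135 (-169) 111 (-73) (-1) (-1) (-1) (-1) (-145) 151 (-1) (-1) (-1) (-1)),
   (4136, v16 (-1) (-1) (-1) 135 (-169) 111 (-73) (-1) (-1) (-1) (-1) (-145) 151 (-1) (-1) (-1)),
   (8272, v16 (-1) (-1) (-1) (-1) 135 (-169) 111 (-73) (-1) (-1) (-1) (-1) (-145) 151 (-1) (-1)),
   (16544, v16 (-73) (-1) (-1) (-1) (-1) 135 (-169) 111 (-1) (-1) (-1) (-1) (-1) (-145) 151 (-1)),
   (32833, v16 111 (-73) (-1) (-1) (-1) (-1) 135 (-169) (-1) (-1) (-1) (-1) (-1) (-1) (-145) 151),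
   (10241, v16 151 (-1) (-1) (-1) (-1) (-145) (-1) (-1) (-169) (-1) (-1) 111 (-1) 135 (-73) (-1)),
   (20482, v16 (-1) 151 (-1) (-1) (-1) (-1) (-145) (-1) (-1) (-169) (-1) (-1) 111 (-1) 135 (-73)),
   (40964, v16 (-1) (-1) 151 (-1) (-1) (-1) (-1) (-145) (-73) (-1) (-169) (-1) (-1) 111 (-1) 135),
   (16648, v16 (-145) (-1) (-1) 151 (-1) (-1) (-1) (-1) 135 (-73) (-1) (-169) (-1) (-1) 111 (-1)),
   (33296, v16 (-1) (-145) (-1) (-1) 151 (-1) (-1) (-1) (-1) 135 (-73) (-1) (-169) (-1) (-1) 111),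
   (1312, v16 (-1) (-1) (-145) (-1) (-1) 151 (-1) (-1) 111 (-1) 135 (-73) (-1) (-169) (-1) (-1)),
   (2624, v16 (-1) (-1) (-1) (-145) (-1) (-1) 151 (-1) (-1) 111 (-1) 135 (-73) (-1) (-169) (-1)),
   (5248, v16 (-1) (-1) (-1) (-1) (-145) (-1) (-1) 151 (-1) (-1) 111 (-1) 135 (-73) (-1) (-169)),
   (416, v16 (-153) (-1) (-57) (-1) (-1) 111 (-1) 103 183 (-1) (-1) (-1) (-1) (-177) (-1) (-1)),
   (577, v16 103 (-153) (-1) (-57) (-1) (-1) 111 (-1) (-1) 183 (-1) (-1) (-1) (-1) (-177) (-1)),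
   (1154, v16 (-1) 103 (-153) (-1) (-57) (-1) (-1) 111 (-1) (-1) 183 (-1) (-1) (-1) (-1) (-177)),
   (2053, v16 111 (-1) 103 (-153) (-1) (-57) (-1) (-1) (-177) (-1) (-1) 183 (-1) (-1) (-1) (-1)),
   (4106, v16 (-1) 111 (-1) 103 (-153) (-1) (-57) (-1) (-1) (-177) (-1) (-1) 183 (-1) (-1) (-1)),
   (8212, v16 (-1) (-1) 111 (-1) 103 (-153) (-1) (-57) (-1) (-1) (-177) (-1) (-1) 183 (-1) (-1)),
   (16424, v16 (-57) (-1) (-1) 111 (-1) 103 (-153) (-1) (-1) (-1) (-1) (-177) (-1) (-1) 183 (-1)),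
   (32848, v16 (-1) (-57) (-1) (-1) 111 (-1) 103 (-153) (-1) (-1) (-1) (-1) (-177) (-1) (-1) 183),
   (40961, v16 183 (-1) (-1) (-1) (-1) (-1) (-1) (-177) (-153) (-1) (-1) (-1) (-1) 103 (-57) 111),
   (16642, v16 (-177) 183 (-1) (-1) (-1) (-1) (-1) (-1) 111 (-153) (-1) (-1) (-1) (-1) 103 (-57)),
   (33284, v16 (-1) (-177) 183 (-1) (-1) (-1) (-1) (-1) (-57) 111 (-153) (-1) (-1) (-1) (-1) 103),
   (1288, v16 (-1) (-1) (-177) 183 (-1) (-1) (-1) (-1) 103 (-57) 111 (-153) (-1) (-1) (-1) (-1)),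
   (2576, v16 (-1) (-1) (-1) (-177) 183 (-1) (-1) (-1) (-1) 103 (-57) 111 (-153) (-1) (-1) (-1)),
   (5152, v16 (-1) (-1) (-1) (-1) (-177) 183 (-1) (-1) (-1) (-1) 103 (-57) 111 (-153) (-1) (-1)),
   (10304, v16 (-1) (-1) (-1) (-1) (-1) (-177) 183 (-1) (-1) (-1) (-1) 103 (-57) 111 (-153) (-1)),
   (20608, v16 (-1) (-1) (-1) (-1) (-1) (-1) (-177) 183 (-1) (-1) (-1) (-1) 103 (-57) 111 (-153))]

/-- Relations inside the two big facets. -/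
def hruleTab : List (ℕ × ℕ × (Fin 16 → ℤ)) :=
  [(17, 255, v16 3 (-1) (-1) (-1) 3 (-1) (-1) (-1) 0 0 0 0 0 0 0 0),
   (34, 255, v16 (-1) 3 (-1) (-1) (-1) 3 (-1) (-1) 0 0 0 0 0 0 0 0),
   (68, 255, v16 (-1) (-1) 3 (-1) (-1) (-1) 3 (-1) 0 0 0 0 0 0 0 0),
   (136, 255, v16 (-1) (-1) (-1) 3 (-1) (-1) (-1) 3 0 0 0 0 0 0 0 0),
   (4352, 65280, v16 0 0 0 0 0 0 0 0 3 (-1) (-1) (-1) 3 (-1) (-1) (-1)),
   (8704, 65280, v16 0 0 0 0 0 0 0 0 (-1) 3 (-1) (-1) (-1) 3 (-1) (-1)),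
   (17408, 65280, v16 0 0 0 0 0 0 0 0 (-1) (-1) 3 (-1) (-1) (-1) 3 (-1)),
   (34816, 65280, v16 0 0 0 0 0 0 0 0 (-1) (-1) (-1) 3 (-1) (-1) (-1) 3)]

def rF : Fin 16 → Fin 16 := ![1, 2, 3, 4, 5, 6, 7, 0, 9, 10, 11, 12, 13, 14, 15, 8]
def rG : Fin 16 → Fin 16 := ![7, 0, 1, 2, 3, 4, 5, 6, 15, 8, 9, 10, 11, 12, 13, 14]
def sF : Fin 16 → Fin 16 := ![8, 11, 14, 9, 12, 15, 10, 13, 0, 3, 6, 1, 4, 7, 2, 5]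
def tF : Fin 16 → Fin 16 := ![0, 3, 6, 1, 4, 7, 2, 5, 14, 9, 12, 15, 10, 13, 8, 11]

end Pool.Agent.MP_3f311b_co
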