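import Pool.Agent.MP_3f311b_co.Checks

set_option autoImplicit false

namespace Pool.Agent.MP_3f311b_co

/-- The 16 vertices with real coordinates. -/
def xr (i : Fin 16) : Fin 5 → ℝ := fun j => (X i j : ℝ)

/-- A set `A` of labels is exposed in the labelled configuration `z`. -/
def Exposed (z : Fin 16 → (Fin 5 → ℝ)) (A : Set (Fin 16)) : Prop :=
  ∃ l : (Fin 5 → ℝ) →ₗ[ℝ] ℝ, ∃ c : ℝ, (∀ i, l (z i) ≤ c) ∧ ∀ i, i ∈ A ↔ l (z i) = c

theorem Exposed.univ (z : Fin 16 → (Fin 5 → ℝ)) : Exposed z Set.univ :=
  ⟨0, 0, by simp, by simp⟩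

theorem Exposed.inter {z : Fin 16 → (Fin 5 → ℝ)} {A B : Set (Fin 16)}
    (hA : Exposed z A) (hB : Exposed z B) : Exposed z (A ∩ B) := by
  obtain ⟨l, c, h1, h2⟩ := hA
  obtain ⟨l', c', h1', h2'⟩ := hB
  refine ⟨l + l', c + c', fun i => ?_, fun i => ?_⟩
  · simpa using add_le_add (h1 i) (h1' i)
  · simp only [Set.mem_inter_iff, h2, h2', LinearMap.add_apply]
    constructor
    · rintro ⟨a, b⟩; rw [a, b]
    · intro h
      have a1 := h1 i
      have a2 := h1' i
      constructor <;> linarith

/-- The linear functional with integer coefficients `l`. -/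
noncomputable def LF (l : Fin 5 → ℤ) : (Fin 5 → ℝ) →ₗ[ℝ] ℝ :=
  ∑ j, (l j : ℝ) • LinearMap.proj j

theorem LF_xr (l : Fin 5 → ℤ) (i : Fin 16) :
    LF l (xr i) = ((∑ j, l j * X i j : ℤ) : ℝ) := by
  simp [LF, xr, LinearMap.sum_apply]

/-- The label set encoded by a bit mask. -/
def bits (m : ℕ) : Set (Fin 16) := {i | m.testBit i.val = true}

theorem facet_exposed {F : ℕ} (hF : F ∈ masks) : Exposed xr (bits F) := by
  unfold masks at hF
  rw [List.mem_map] at hF
  obtain ⟨f, hf, rfl⟩ := hF
  refine ⟨LF f.1, (f.2.1 : ℝ), fun i => ?_, fun i => ?_⟩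
  · rw [LF_xr]
    exact_mod_cast (facet_check f hf i).1
  · rw [LF_xr]
    show (f.2.2.testBit i.val = true) ↔ _
    rw [(facet_check f hf i).2]
    exact_mod_cast Iff.rfl

/-- A label set is closed if it is an intersection of facets. -/
def Closed (A : Set (Fin 16)) : Prop :=
  ∀ i, (∀ F ∈ masks, A ⊆ bits F → i ∈ bits F) → i ∈ A

theorem exposed_inter_list (A : Set (Fin 16)) (L : List ℕ) (hL : ∀ F ∈ L, Exposed xr (bits F)) :
    Exposed xr {i | ∀ F ∈ L, A ⊆ bits F → i ∈ bits F} := by
  induction L with
  | nil => simpa using Exposed.univ xr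
  | cons a L ih =>
    have h1 := ih (fun F hF => hL F (List.mem_cons_of_mem _ hF))
    by_cases ha : A ⊆ bits a
    · have h2 := (hL a List.mem_cons_self).inter h1
      convert h2 using 1
      ext i
      simp only [List.mem_cons, Set.mem_ofPred_eq, Set.mem_inter_iff]
      constructor
      · intro h
        exact ⟨h a (Or.inl rfl) ha, fun F hF => h F (Or.inr hF)⟩
      · rintro ⟨h, h'⟩ F (rfl | hF) hs
        · exact h
        · exact h' F hF hs
    · convert h1 using 1
      ext i
      simp only [List.mem_cons, Set.mem_ofPred_eq]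
      constructor
      · intro h F hF
        exact h F (Or.inr hF)
      · rintro h' F (rfl | hF) hs
        · exact absurd hs ha
        · exact h' F hF hs

theorem Closed.exposed {A : Set (Fin 16)} (hA : Closed A) : Exposed xr A := by
  have h := exposed_inter_list A masks (fun F hF => facet_exposed hF)
  convert h using 1
  ext i
  exact ⟨fun hi F _ hs => hs hi, fun h => hA i h⟩

theorem rule_lemma {A : Set (Fin 16)} (hA : Exposed xr A) (w : Fin 16 → ℤ)
    (h0 : ∑ i, w i = 0) (h1 : ∀ j : Fin 5, ∑ i, w i * X i j = 0)
    (hpos : ∀ i, 0 < w i → i ∈ A) (i : Fin 16) (hi : w i < 0) : i ∈ A := by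
  obtain ⟨l, c, h2, h3⟩ := hA
  have e1 : ∑ i, (w i : ℝ) • xr i = 0 := by
    ext j
    have := h1 j
    simp only [Finset.sum_apply, Pi.smul_apply, smul_eq_mul, xr, Pi.zero_apply]
    exact_mod_cast this
  have e2 : ∑ i, (w i : ℝ) * (l (xr i) - c) = 0 := by
    have e3 : ∑ i, (w i : ℝ) * l (xr i) = 0 := by
      have := congrArg l e1
      simpa [map_sum] using this
    have e4 : ∑ i, (w i : ℝ) = 0 := by exact_mod_cast h0
    simp only [mul_sub, Finset.sum_sub_distrib, e3, ← Finset.sum_mul, e4]
    simp
  have e5 : ∀ k ∈ (Finset.univ : Finset (Fin 16)), 0 ≤ (w k : ℝ) * (l (xr k) - c) := by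
    intro k _
    rcases lt_trichotomy (w k) 0 with h | h | h
    · have : (w k : ℝ) < 0 := by exact_mod_cast h
      have := h2 k
      nlinarith
    · simp [h]
    · have := (h3 k).1 (hpos k h)
      simp [this]
  have e6 := (Finset.sum_eq_zero_iff_of_nonneg e5).1 e2 i (Finset.mem_univ i)
  have e7 : (w i : ℝ) ≠ 0 := by exact_mod_cast hi.ne
  rcases mul_eq_zero.1 e6 with h | h
  · exact absurd h e7
  · exact (h3 i).2 (by linarith)

theorem sub_iff (a b : ℕ) : sub a b = true ↔ ∀ n, a.testBit n = true → b.testBit n = true := by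
  unfold sub
  rw [beq_iff_eq]
  constructor
  · intro h n hn
    rw [← h, Nat.testBit_and] at hn
    simp only [Bool.and_eq_true] at hn
    exact hn.2
  · intro h
    apply Nat.eq_of_testBit_eq
    intro n
    rw [Nat.testBit_and]
    cases ha : a.testBit n
    · simp
    · simp [h n ha]

theorem foldl_closure (m n : ℕ) (L : List ℕ) (acc : ℕ) :
    (L.foldl (fun acc F => if sub m F then acc &&& F else acc) acc).testBit n = true ↔
      acc.testBit n = true ∧ ∀ F ∈ L, sub m F = true → F.testBit n = true := by
  induction L generalizing acc with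
  | nil => simp
  | cons a L ih =>
    rw [List.foldl_cons, ih]
    by_cases ha : sub m a = true
    · simp only [ha, if_true, Nat.testBit_and, Bool.and_eq_true, List.mem_cons]
      constructor
      · rintro ⟨⟨h1, h2⟩, h3⟩
        refine ⟨h1, ?_⟩
        rintro F (rfl | hF) hs
        · exact h2
        · exact h3 F hF hs
      · rintro ⟨h1, h2⟩
        exact ⟨⟨h1, h2 a (Or.inl rfl) ha⟩, fun F hF => h2 F (Or.inr hF)⟩
    · simp only [ha, List.mem_cons]
      constructor
      · rintro ⟨h1, h3⟩
        refine ⟨by simpa using h1, ?_⟩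
        rintro F (rfl | hF) hs
        · exact absurd hs ha
        · exact h3 F hF hs
      · rintro ⟨h1, h2⟩
        exact ⟨by simpa using h1, fun F hF => h2 F (Or.inr hF)⟩

theorem closure_testBit (m n : ℕ) :
    (closure m).testBit n = true ↔ n < 16 ∧ ∀ F ∈ masks, sub m F = true → F.testBit n = true := by
  unfold closure
  rw [foldl_closure]
  have : (65535 : ℕ).testBit n = true ↔ n < 16 := by
    have := Nat.testBit_two_pow_sub_one 16 n
    norm_num at this
    rw [this]
    simp
  rw [this]

theorem badM_mono {a b : ℕ} (h : ∀ n, a.testBit n = true → b.testBit n = true)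
    (ha : badM a = true) : badM b = true := by
  unfold badM at *
  rw [List.any_eq_true] at *
  obtain ⟨w, hw, hs⟩ := ha
  refine ⟨w, hw, ?_⟩
  rw [sub_iff] at *
  exact fun n hn => h n (hs n hn)

theorem dfs_sound (M : ℕ) (hM : badM M = false) (k : ℕ) :
    dfs k ((M >>> k) <<< k) = true → leaf M = true := by
  induction k with
  | zero =>
    intro h
    simpa [dfs, hM] using h
  | succ k ih =>
    intro h
    have hb : badM ((M >>> (k+1)) <<< (k+1)) = false := by
      by_contra hc
      have hc' : badM ((M >>> (k+1)) <<< (k+1)) = true := by simpa using hc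
      have := badM_mono (b := M) (fun n hn => ?_) hc'
      · rw [this] at hM; exact absurd hM (by simp)
      · rw [Nat.testBit_shiftLeft, Nat.testBit_shiftRight] at hn
        simp only [Bool.and_eq_true, decide_eq_true_eq] at hn
        have e : k + 1 + (n - (k + 1)) = n := by omega
        rw [e] at hn
        exact hn.2
    have h' : dfs k ((M >>> (k+1)) <<< (k+1)) = true ∧
        dfs k ((M >>> (k+1)) <<< (k+1) ||| (1 <<< k)) = true := by
      simpa [dfs, hb] using h
    apply ih
    by_cases hk : M.testBit k = true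
    · have e : (M >>> k) <<< k = (M >>> (k+1)) <<< (k+1) ||| (1 <<< k) := by
        apply Nat.eq_of_testBit_eq
        intro n
        rw [Nat.testBit_or]
        simp only [Nat.testBit_shiftLeft, Nat.testBit_shiftRight]
        rcases lt_trichotomy n k with hn | hn | hn
        · have h1 : ¬ k ≤ n := by omega
          have h2 : ¬ k + 1 ≤ n := by omega
          simp [h1, h2]
        · subst hn
          have h2 : ¬ n + 1 ≤ n := by omega
          simp [hk, h2]
        · have h1 : k ≤ n := by omega
          have h2 : k + 1 ≤ n := by omega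
          have e1 : k + (n - k) = n := by omega
          have e2 : k + 1 + (n - (k + 1)) = n := by omega
          have e3 : (1 : ℕ).testBit (n - k) = false := by
            have : n - k ≠ 0 := by omega
            rw [← Bool.not_eq_true, Nat.testBit_one_eq_true_iff_self_eq_zero]
            exact this
          simp [h1, h2, e1, e2, e3]
      rw [e]; exact h'.2
    · have e : (M >>> k) <<< k = (M >>> (k+1)) <<< (k+1) := by
        apply Nat.eq_of_testBit_eq
        intro n
        simp only [Nat.testBit_shiftLeft, Nat.testBit_shiftRight]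
        rcases lt_trichotomy n k with hn | hn | hn
        · have h1 : ¬ k ≤ n := by omega
          have h2 : ¬ k + 1 ≤ n := by omega
          simp [h1, h2]
        · subst hn
          have h2 : ¬ n + 1 ≤ n := by omega
          simp [hk, h2]
        · have h1 : k ≤ n := by omega
          have h2 : k + 1 ≤ n := by omega
          have e1 : k + (n - k) = n := by omega
          have e2 : k + 1 + (n - (k + 1)) = n := by omega
          simp [h1, h2, e1, e2]
      rw [e]; exact h'.1

open Classical in
/-- The bit mask of a label set. -/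
noncomputable def maskOf (A : Set (Fin 16)) : ℕ := Nat.ofBits (fun i : Fin 16 => decide (i ∈ A))

theorem maskOf_testBit (A : Set (Fin 16)) (i : Fin 16) :
    (maskOf A).testBit i.val = true ↔ i ∈ A := by
  unfold maskOf
  rw [Nat.testBit_ofBits_lt _ _ i.isLt]
  simp

theorem maskOf_lt (A : Set (Fin 16)) : maskOf A < 2 ^ 16 := Nat.ofBits_lt_two_pow _

theorem maskOf_testBit' (A : Set (Fin 16)) (n : ℕ) (h : (maskOf A).testBit n = true) : n < 16 := by
  by_contra hc
  have : (maskOf A).testBit n = false :=
    Nat.testBit_lt_two_pow (lt_of_lt_of_le (maskOf_lt A) (Nat.pow_le_pow_right (by norm_num) (by omega)))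
  rw [this] at h
  exact absurd h (by simp)

theorem hrule_lt : ∀ w ∈ hruleTab, w.2.1 < 2 ^ 16 := by decide +kernel

theorem Exposed.closed {A : Set (Fin 16)} (hA : Exposed xr A) : Closed A := by
  by_cases hb : badM (maskOf A) = true
  · -- A is everything
    have huniv : ∀ i, i ∈ A := by
      unfold badM at hb
      rw [List.any_eq_true] at hb
      obtain ⟨w, hw, hs⟩ := hb
      rw [sub_iff] at hs
      obtain ⟨c1, c2, c3⟩ := rule_check w hw
      have hpos : ∀ i, 0 < w.2 i → i ∈ A := fun i hi =>
        (maskOf_testBit A i).1 (hs _ ((c3 i).1 hi))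
      intro i
      by_cases hi : w.1.testBit i.val = true
      · exact (maskOf_testBit A i).1 (hs _ hi)
      · exact rule_lemma hA w.2 c1 c2 hpos i ((c3 i).2 (by simpa using hi))
    exact fun i _ => huniv i
  · have hb' : badM (maskOf A) = false := by simpa using hb
    have hz : (maskOf A >>> 16) <<< 16 = 0 := by
      rw [Nat.shiftRight_eq_div_pow, Nat.div_eq_of_lt (maskOf_lt A)]
      simp
    have hleaf : leaf (maskOf A) = true := by
      apply dfs_sound (maskOf A) hb' 16
      rw [hz]
      exact dfs_check
    have hcl : closure (maskOf A) = maskOf A := by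
      unfold leaf at hleaf
      rw [Bool.or_eq_true] at hleaf
      rcases hleaf with h | h
      · exfalso
        rw [List.any_eq_true] at h
        obtain ⟨w, hw, hs⟩ := h
        simp only [Bool.and_eq_true, Bool.not_eq_true'] at hs
        obtain ⟨hs1, hs2⟩ := hs
        rw [sub_iff] at hs1
        obtain ⟨c1, c2, c3⟩ := hrule_check w hw
        have hpos : ∀ i, 0 < w.2.2 i → i ∈ A := fun i hi =>
          (maskOf_testBit A i).1 (hs1 _ ((c3 i).1 hi))
        have : sub w.2.1 (maskOf A) = true := by
          rw [sub_iff]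
          intro n hn
          have hn16 : n < 16 := by
            have := hrule_lt w hw
            by_contra hc
            have h2 : w.2.1.testBit n = false :=
              Nat.testBit_lt_two_pow (lt_of_lt_of_le this
                (Nat.pow_le_pow_right (by norm_num) (by omega)))
            rw [h2] at hn
            exact absurd hn (by simp)
          by_cases hi : w.1.testBit n = true
          · exact hs1 _ hi
          · have := rule_lemma hA w.2.2 c1 c2 hpos ⟨n, hn16⟩
              ((c3 ⟨n, hn16⟩).2 hn (by simpa using hi))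
            exact (maskOf_testBit A ⟨n, hn16⟩).2 this
        rw [this] at hs2
        exact absurd hs2 (by simp)
      · simpa using h
    intro i hi
    rw [← maskOf_testBit, ← hcl, closure_testBit]
    refine ⟨i.isLt, fun F hF hs => ?_⟩
    apply hi F hF
    intro a ha
    rw [sub_iff] at hs
    exact hs _ ((maskOf_testBit A a).2 ha)

theorem Closed.image {A : Set (Fin 16)} (p : Equiv.Perm (Fin 16)) (hp : Inv p)
    (hA : Closed A) : Closed (p '' A) := by
  intro i hi
  obtain ⟨k, rfl⟩ := p.surjective i
  refine ⟨k, ?_, rfl⟩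
  apply hA
  intro F hF hs
  obtain ⟨F', hF', h⟩ := hp F hF
  have h1 : p '' A ⊆ bits F' := by
    rintro _ ⟨a, ha, rfl⟩
    show F'.testBit (p a).val = true
    rw [h a]
    exact hs ha
  have h2 := hi F' hF' h1
  show F.testBit k.val = true
  rw [← h k]
  exact h2

theorem exposed_perm (p : Equiv.Perm (Fin 16)) (hp : Inv p) (hp' : Inv p.symm)
    (A : Set (Fin 16)) : Exposed xr A ↔ Exposed xr (p '' A) := by
  constructor
  · intro h
    exact (h.closed.image p hp).exposed
  · intro h
    have h2 := (h.closed.image p.symm hp').exposed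
    have : p.symm '' (p '' A) = A := by
      rw [← Set.image_comp]
      simp
    rwa [this] at h2

def rE : Equiv.Perm (Fin 16) := ⟨rF, rG, by decide, by decide⟩
def sE : Equiv.Perm (Fin 16) := ⟨sF, sF, by decide, by decide⟩
def tE : Equiv.Perm (Fin 16) := ⟨tF, tF, by decide, by decide⟩

end Pool.Agent.MP_3f311b_co
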