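import Pool.Agent.MP_3f311b_co.Faces

set_option autoImplicit false

namespace Pool.Agent.MP_3f311b_co

open Matrix

def RZ : Matrix (Fin 5) (Fin 5) ℤ :=
  !![0, 0, 0, -1, 0; 1, 0, 0, 0, 0; 0, 1, 0, 0, 0; 0, 0, 1, 0, 0; 0, 0, 0, 0, 1]
def RZ' : Matrix (Fin 5) (Fin 5) ℤ :=
  !![0, 1, 0, 0, 0; 0, 0, 1, 0, 0; 0, 0, 0, 1, 0; -1, 0, 0, 0, 0; 0, 0, 0, 0, 1]
def SZ : Matrix (Fin 5) (Fin 5) ℤ :=
  !![1, 0, 0, 0, 0; 0, 0, 0, 1, 0; 0, 0, -1, 0, 0; 0, 1, 0, 0, 0; 0, 0, 0, 0, -1]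

noncomputable def toR (A : Matrix (Fin 5) (Fin 5) ℤ) : Matrix (Fin 5) (Fin 5) ℝ :=
  A.map (Int.castRingHom ℝ)

theorem toR_mul (A B : Matrix (Fin 5) (Fin 5) ℤ) : toR A * toR B = toR (A * B) := by
  unfold toR; rw [Matrix.map_mul]

theorem toR_one : toR 1 = 1 := by
  unfold toR; simp

theorem toR_mulVec_xr (A : Matrix (Fin 5) (Fin 5) ℤ) (i : Fin 16) :
    (toR A).mulVec (xr i) = fun j => ((A.mulVec (X i) j : ℤ) : ℝ) := by
  ext j
  simp [toR, Matrix.mulVec, dotProduct, xr]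

noncomputable def Rg : GL (Fin 5) ℝ :=
  ⟨toR RZ, toR RZ', by rw [toR_mul, show RZ * RZ' = 1 by decide, toR_one],
    by rw [toR_mul, show RZ' * RZ = 1 by decide, toR_one]⟩

noncomputable def Sg : GL (Fin 5) ℝ :=
  ⟨toR SZ, toR SZ, by rw [toR_mul, show SZ * SZ = 1 by decide, toR_one],
    by rw [toR_mul, show SZ * SZ = 1 by decide, toR_one]⟩

theorem RZ_X : ∀ i j, RZ.mulVec (X i) j = X (rF i) j := by decide
theorem RZ'_X : ∀ i j, RZ'.mulVec (X i) j = X (rG i) j := by decide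
theorem SZ_X : ∀ i j, SZ.mulVec (X i) j = X (sF i) j := by decide

theorem R_xr (i : Fin 16) : (Rg : Matrix (Fin 5) (Fin 5) ℝ).mulVec (xr i) = xr (rF i) := by
  show (toR RZ).mulVec (xr i) = _
  rw [toR_mulVec_xr]
  ext j
  simp only [RZ_X, xr]

theorem S_xr (i : Fin 16) : (Sg : Matrix (Fin 5) (Fin 5) ℝ).mulVec (xr i) = xr (sF i) := by
  show (toR SZ).mulVec (xr i) = _
  rw [toR_mulVec_xr]
  ext j
  simp only [SZ_X, xr]

theorem X_inj : Function.Injective X := by decide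

theorem xr_inj : Function.Injective xr := by
  intro i j h
  apply X_inj
  ext k
  have := congrFun h k
  simpa [xr] using this

/-- The group: all invertible matrices that preserve the set of the 16 points. -/
noncomputable def G : Subgroup (GL (Fin 5) ℝ) where
  carrier := {g | ∀ x, x ∈ Set.range xr ↔ (g : Matrix (Fin 5) (Fin 5) ℝ).mulVec x ∈ Set.range xr}
  one_mem' := by intro x; simp
  mul_mem' := by
    intro a b ha hb x
    rw [hb x, ha _]
    simp [Matrix.mulVec_mulVec]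
  inv_mem' := by
    intro a ha x
    have h := ha (((a⁻¹ : GL (Fin 5) ℝ) : Matrix (Fin 5) (Fin 5) ℝ).mulVec x)
    rw [h, Matrix.mulVec_mulVec, ← Units.val_mul, mul_inv_cancel]
    simp

theorem mem_G {g : GL (Fin 5) ℝ} {p q : Fin 16 → Fin 16}
    (h : ∀ i, (g : Matrix (Fin 5) (Fin 5) ℝ).mulVec (xr i) = xr (p i))
    (hq : ∀ i, p (q i) = i) : g ∈ G := by
  intro x
  constructor
  · rintro ⟨i, rfl⟩
    exact ⟨p i, (h i).symm⟩
  · rintro ⟨i, hi⟩
    have h1 := h (q i)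
    rw [hq, hi] at h1
    have h2 : xr (q i) = x := by
      have := congrArg (((g⁻¹ : GL (Fin 5) ℝ) : Matrix (Fin 5) (Fin 5) ℝ).mulVec) h1
      rw [Matrix.mulVec_mulVec, Matrix.mulVec_mulVec, ← Units.val_mul, inv_mul_cancel] at this
      simpa using this
    exact ⟨q i, h2⟩

theorem Rg_mem : Rg ∈ G := mem_G R_xr (q := rG) (by decide)
theorem Sg_mem : Sg ∈ G := mem_G S_xr (q := sF) (by decide)

theorem orbit_eq :
    {x | ∃ g ∈ G, x = Matrix.mulVec (g : Matrix (Fin 5) (Fin 5) ℝ) (xr 0)} = Set.range xr := by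
  apply Set.Subset.antisymm
  · rintro x ⟨g, hg, rfl⟩
    exact (hg (xr 0)).1 ⟨0, rfl⟩
  · have hR : ∀ i, (∃ g ∈ G, xr i = Matrix.mulVec (g : Matrix (Fin 5) (Fin 5) ℝ) (xr 0)) →
        (∃ g ∈ G, xr (rF i) = Matrix.mulVec (g : Matrix (Fin 5) (Fin 5) ℝ) (xr 0)) := by
      rintro i ⟨g, hg, h⟩
      refine ⟨Rg * g, G.mul_mem Rg_mem hg, ?_⟩
      rw [← R_xr, h, Matrix.mulVec_mulVec, Units.val_mul]
    have hS : ∀ i, (∃ g ∈ G, xr i = Matrix.mulVec (g : Matrix (Fin 5) (Fin 5) ℝ) (xr 0)) →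
        (∃ g ∈ G, xr (sF i) = Matrix.mulVec (g : Matrix (Fin 5) (Fin 5) ℝ) (xr 0)) := by
      rintro i ⟨g, hg, h⟩
      refine ⟨Sg * g, G.mul_mem Sg_mem hg, ?_⟩
      rw [← S_xr, h, Matrix.mulVec_mulVec, Units.val_mul]
    have h0 : ∃ g ∈ G, xr 0 = Matrix.mulVec (g : Matrix (Fin 5) (Fin 5) ℝ) (xr 0) :=
      ⟨1, G.one_mem, by simp⟩
    have h1 := hR 0 h0
    have h2 := hR 1 h1
    have h3 := hR 2 h2
    have h4 := hR 3 h3
    have h5 := hR 4 h4
    have h6 := hR 5 h5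
    have h7 := hR 6 h6
    have h8 := hS 0 h0
    have h9 := hR 8 h8
    have h10 := hR 9 h9
    have h11 := hR 10 h10
    have h12 := hR 11 h11
    have h13 := hR 12 h12
    have h14 := hR 13 h13
    have h15 := hR 14 h14
    rintro x ⟨i, rfl⟩
    fin_cases i
    · exact h0
    · exact h1
    · exact h2
    · exact h3
    · exact h4
    · exact h5
    · exact h6
    · exact h7
    · exact h8
    · exact h9
    · exact h10
    · exact h11
    · exact h12
    · exact h13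
    · exact h14
    · exact h15

/-- Coefficients expressing the basis vectors by the points. -/
def cf : Fin 5 → Fin 5 → ℤ :=
  ![v5 10 (-7) 3 (-11) 5, v5 5 5 (-7) 3 (-6), v5 (-6) 11 5 (-7) (-3), v5 (-3) (-3) 11 5 (-10),
    v5 17 0 0 0 17]

theorem span_top : Submodule.span ℝ (Set.range xr) = ⊤ := by
  have hi : ∀ k : Fin 5, (Pi.single k (1 : ℝ) : Fin 5 → ℝ) ∈ Submodule.span ℝ (Set.range xr) := by
    intro k
    have hZ : ∀ k j : Fin 5, ∑ i : Fin 5, cf k i * X ⟨i.val, by omega⟩ j =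
        if k = j then 34 else 0 := by decide
    have h : (Pi.single k (1 : ℝ) : Fin 5 → ℝ) =
        ∑ i : Fin 5, ((cf k i : ℝ) / 34) • xr ⟨i.val, by omega⟩ := by
      ext j
      have h1 := hZ k j
      have h2 : (∑ i : Fin 5, (cf k i : ℝ) * (X ⟨i.val, by omega⟩ j : ℝ)) =
          if k = j then 34 else 0 := by exact_mod_cast h1
      simp only [Finset.sum_apply, Pi.smul_apply, smul_eq_mul, xr]
      have h3 : ∑ i : Fin 5, (cf k i : ℝ) / 34 * (X ⟨i.val, by omega⟩ j : ℝ) =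
          (∑ i : Fin 5, (cf k i : ℝ) * (X ⟨i.val, by omega⟩ j : ℝ)) / 34 := by
        rw [Finset.sum_div]
        exact Finset.sum_congr rfl (fun i _ => by ring)
      rw [h3, h2]
      by_cases hkj : k = j
      · subst hkj; simp
      · simp [hkj, Pi.single_apply, Ne.symm hkj]
    rw [h]
    exact Submodule.sum_mem _ (fun i _ => Submodule.smul_mem _ _ (Submodule.subset_span ⟨_, rfl⟩))
  rw [eq_top_iff]
  intro x _
  have : x = ∑ k, x k • (Pi.single k (1 : ℝ) : Fin 5 → ℝ) := by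
    ext j
    simp [Finset.sum_apply, Pi.single_apply]
  rw [this]
  exact Submodule.sum_mem _ (fun k _ => Submodule.smul_mem _ _ (hi k))

theorem affine_top : affineSpan ℝ (Set.range xr) = ⊤ := by
  have hm : ∀ i, xr i ∈ affineSpan ℝ (Set.range xr) := fun i => subset_affineSpan _ _ ⟨i, rfl⟩
  have h0 : (0 : Fin 5 → ℝ) ∈ affineSpan ℝ (Set.range xr) := by
    have h1 := AffineMap.lineMap_mem (1/2 : ℝ) (hm 0) (hm 4)
    have h2 := AffineMap.lineMap_mem (1/2 : ℝ) (hm 8) (hm 12)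
    have h3 := AffineMap.lineMap_mem (1/2 : ℝ) h1 h2
    convert h3 using 1
    have hZ : ∀ j, X 0 j + X 4 j + X 8 j + X 12 j = 0 := by decide
    ext j
    have hj : (X 0 j : ℝ) + X 4 j + X 8 j + X 12 j = 0 := by exact_mod_cast hZ j
    simp only [AffineMap.lineMap_apply, vsub_eq_sub, vadd_eq_add, Pi.zero_apply, Pi.add_apply,
      Pi.smul_apply, Pi.sub_apply, smul_eq_mul, xr]
    linarith
  have hd : (affineSpan ℝ (Set.range xr)).direction = ⊤ := by
    rw [eq_top_iff, ← span_top, Submodule.span_le]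
    rintro _ ⟨i, rfl⟩
    have := AffineSubspace.vsub_mem_direction (hm i) h0
    simpa using this
  exact (AffineSubspace.direction_eq_top_iff_of_nonempty ⟨0, h0⟩).1 hd

theorem G_finite : (G : Set (GL (Fin 5) ℝ)).Finite := by
  have hinj : Set.InjOn (fun (g : GL (Fin 5) ℝ) (i : Fin 16) =>
      (g : Matrix (Fin 5) (Fin 5) ℝ).mulVec (xr i)) (G : Set (GL (Fin 5) ℝ)) := by
    intro g _ h _ hgh
    apply Units.ext
    have h1 : (g : Matrix (Fin 5) (Fin 5) ℝ).mulVecLin = (h : Matrix (Fin 5) (Fin 5) ℝ).mulVecLin := by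
      apply LinearMap.ext_on_range span_top
      intro i
      have := congrFun hgh i
      simpa using this
    have h2 := congrArg LinearMap.toMatrix' h1
    simpa [← Matrix.toLin'_apply'] using h2
  have hmaps : Set.MapsTo (fun (g : GL (Fin 5) ℝ) (i : Fin 16) =>
      (g : Matrix (Fin 5) (Fin 5) ℝ).mulVec (xr i)) (G : Set (GL (Fin 5) ℝ))
      (Set.pi Set.univ (fun _ : Fin 16 => Set.range xr)) := by
    intro g hg i _
    exact (hg (xr i)).1 ⟨i, rfl⟩
  exact Set.Finite.of_injOn hmaps hinj (Set.Finite.pi (fun _ => Set.finite_range xr))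

end Pool.Agent.MP_3f311b_co
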