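import Pool.Agent.MP_3f311b_co.Faces

set_option autoImplicit false

namespace Pool.Agent.MP_3f311b_co

abbrev V := Fin 5 → ℝ

/-- The transversal of the antipodal pairs `{k, k+4}` given by signs. -/
def trans (e : Fin 4 → Bool) : Fin 16 → Bool := fun i =>
  (i.val < 4 && e ⟨i.val % 4, Nat.mod_lt _ (by norm_num)⟩) ||
  (4 ≤ i.val && i.val < 8 && !(e ⟨i.val % 4, Nat.mod_lt _ (by norm_num)⟩))

def ClosedB (A : Fin 16 → Bool) : Prop :=
  ∀ i, (∀ F ∈ masks, (∀ a : Fin 16, A a = true → F.testBit a.val = true) →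
    F.testBit i.val = true) → A i = true

instance (A : Fin 16 → Bool) : Decidable (ClosedB A) := by
  unfold ClosedB; infer_instance

theorem closed_of_closedB (A : Fin 16 → Bool) (h : ClosedB A) : Closed {i | A i = true} := by
  intro i hi
  apply h i
  intro F hF hs
  exact hi F hF (fun a ha => hs a ha)

theorem trans_check : ∀ e : Fin 4 → Bool, ClosedB (trans e) := by decide +kernel

def h1B : Fin 16 → Bool := fun i => decide (i.val < 8)
theorem h1_check : ClosedB h1B := by decide +kernel

def a138 : Fin 16 → Bool := fun i => i = 1 || i = 3 || i = 8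
def a028 : Fin 16 → Bool := fun i => i = 0 || i = 2 || i = 8
theorem a138_check : ClosedB a138 := by decide +kernel
theorem a028_check : ClosedB a028 := by decide +kernel

theorem lin_sub (T : V ≃ᵃ[ℝ] V) (Y : Fin 16 → V) (p : Fin 16 → Fin 16)
    (h : ∀ i, T (Y i) = Y (p i)) (i j : Fin 16) :
    (T : V →ᵃ[ℝ] V).linear (Y i - Y j) = Y (p i) - Y (p j) := by
  have h1 := (T : V →ᵃ[ℝ] V).linearMap_vsub (Y i) (Y j)
  simp only [vsub_eq_sub] at h1
  rw [h1]
  show T (Y i) - T (Y j) = _
  rw [h, h]

theorem sign_aux {a x y c : ℝ} (e : Bool) (he : e = true ↔ 0 < a)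
    (hx : e = true → x = c ∧ y < c) (hy : e = false → y = c ∧ x < c) :
    0 ≤ a * (x - y) ∧ (a * (x - y) = 0 → a = 0) := by
  cases e
  · have ha : ¬ 0 < a := fun h => by simpa using he.2 h
    obtain ⟨h1, h2⟩ := hy rfl
    constructor
    · nlinarith
    · intro h
      rcases mul_eq_zero.1 h with h | h
      · exact h
      · linarith
  · have ha : 0 < a := he.1 rfl
    obtain ⟨h1, h2⟩ := hx rfl
    constructor
    · nlinarith
    · intro h
      rcases mul_eq_zero.1 h with h | h
      · exact h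
      · linarith

theorem indep (Y : Fin 16 → V) (hface : ∀ A : Set (Fin 16), Closed A → Exposed Y A)
    (a0 a1 a2 a3 b : ℝ)
    (h : a0 • (Y 0 - Y 4) + a1 • (Y 1 - Y 5) + a2 • (Y 2 - Y 6) + a3 • (Y 3 - Y 7) +
      b • ((Y 0 - Y 8) + (Y 1 - Y 9) + (Y 2 - Y 10) + (Y 3 - Y 11) + (Y 4 - Y 12) +
        (Y 5 - Y 13) + (Y 6 - Y 14) + (Y 7 - Y 15)) = 0) :
    a0 = 0 ∧ a1 = 0 ∧ a2 = 0 ∧ a3 = 0 ∧ b = 0 := by
  have hb : b = 0 := by
    obtain ⟨l, c, h1, h2⟩ := hface _ (closed_of_closedB _ h1_check)
    have e : ∀ i : Fin 16, i.val < 8 → l (Y i) = c := fun i hi =>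
      (h2 i).1 (by simp [h1B, hi])
    have e' : ∀ i : Fin 16, ¬ i.val < 8 → l (Y i) < c := fun i hi =>
      lt_of_le_of_ne (h1 i) (fun hc => by
        have := (h2 i).2 hc
        simp [h1B] at this
        exact hi this)
    have e0 := e 0 (by decide)
    have e1 := e 1 (by decide)
    have e2 := e 2 (by decide)
    have e3 := e 3 (by decide)
    have e4 := e 4 (by decide)
    have e5 := e 5 (by decide)
    have e6 := e 6 (by decide)
    have e7 := e 7 (by decide)
    have e8 := e' 8 (by decide)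
    have e9 := e' 9 (by decide)
    have e10 := e' 10 (by decide)
    have e11 := e' 11 (by decide)
    have e12 := e' 12 (by decide)
    have e13 := e' 13 (by decide)
    have e14 := e' 14 (by decide)
    have e15 := e' 15 (by decide)
    have hl := congrArg l h
    simp only [map_add, map_sub, map_smul, map_zero, smul_eq_mul, e0, e1, e2, e3, e4, e5, e6, e7,
      sub_self, mul_zero, zero_add, add_zero] at hl
    rcases mul_eq_zero.1 hl with h | h
    · exact h
    · linarith
  subst hb
  obtain ⟨l, c, h1, h2⟩ := hface _ (closed_of_closedB _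
    (trans_check ![decide (0 < a0), decide (0 < a1), decide (0 < a2), decide (0 < a3)]))
  have hlt : ∀ i, ¬ (l (Y i) = c) → l (Y i) < c := fun i hi => lt_of_le_of_ne (h1 i) hi
  have k0 := sign_aux (a := a0) (x := l (Y 0)) (y := l (Y 4)) (c := c) (decide (0 < a0)) (by simp)
    (fun h => ⟨(h2 0).1 (by simpa [trans] using h), hlt 4 (fun hc => by
      have := (h2 4).2 hc; simp [trans] at this; simp at h; linarith)⟩)
    (fun h => ⟨(h2 4).1 (by simpa [trans] using h), hlt 0 (fun hc => by
      have := (h2 0).2 hc; simp [trans] at this; simp at h; linarith)⟩)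
  have k1 := sign_aux (a := a1) (x := l (Y 1)) (y := l (Y 5)) (c := c) (decide (0 < a1)) (by simp)
    (fun h => ⟨(h2 1).1 (by simpa [trans] using h), hlt 5 (fun hc => by
      have := (h2 5).2 hc; simp [trans] at this; simp at h; linarith)⟩)
    (fun h => ⟨(h2 5).1 (by simpa [trans] using h), hlt 1 (fun hc => by
      have := (h2 1).2 hc; simp [trans] at this; simp at h; linarith)⟩)
  have k2 := sign_aux (a := a2) (x := l (Y 2)) (y := l (Y 6)) (c := c) (decide (0 < a2)) (by simp)
    (fun h => ⟨(h2 2).1 (by simpa [trans] using h), hlt 6 (fun hc => by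
      have := (h2 6).2 hc; simp [trans] at this; simp at h; linarith)⟩)
    (fun h => ⟨(h2 6).1 (by simpa [trans] using h), hlt 2 (fun hc => by
      have := (h2 2).2 hc; simp [trans] at this; simp at h; linarith)⟩)
  have k3 := sign_aux (a := a3) (x := l (Y 3)) (y := l (Y 7)) (c := c) (decide (0 < a3)) (by simp)
    (fun h => ⟨(h2 3).1 (by simpa [trans] using h), hlt 7 (fun hc => by
      have := (h2 7).2 hc; simp [trans] at this; simp at h; linarith)⟩)
    (fun h => ⟨(h2 7).1 (by simpa [trans] using h), hlt 3 (fun hc => by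
      have := (h2 3).2 hc; simp [trans] at this; simp at h; linarith)⟩)
  have hl := congrArg l h
  simp only [map_add, map_sub, map_smul, map_zero, smul_eq_mul, zero_mul, add_zero] at hl
  refine ⟨k0.2 ?_, k1.2 ?_, k2.2 ?_, k3.2 ?_, rfl⟩
  · linarith [k0.1, k1.1, k2.1, k3.1]
  · linarith [k0.1, k1.1, k2.1, k3.1]
  · linarith [k0.1, k1.1, k2.1, k3.1]
  · linarith [k0.1, k1.1, k2.1, k3.1]

end Pool.Agent.MP_3f311b_co
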