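import Pool.Agent.MP_3f311b_co.NoSym

set_option autoImplicit false

namespace Pool.Agent.MP_3f311b_co

theorem exists_coords (D0 D1 D2 D3 N : V)
    (hind : ∀ a0 a1 a2 a3 b : ℝ, a0 • D0 + a1 • D1 + a2 • D2 + a3 • D3 + b • N = 0 →
      a0 = 0 ∧ a1 = 0 ∧ a2 = 0 ∧ a3 = 0 ∧ b = 0) (x : V) :
    ∃ a0 a1 a2 a3 b : ℝ, x = a0 • D0 + a1 • D1 + a2 • D2 + a3 • D3 + b • N := by
  have hli : LinearIndependent ℝ (![D0, D1, D2, D3, N] : Fin 5 → V) := by
    rw [Fintype.linearIndependent_iff]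
    intro g hg
    rw [Fin.sum_univ_five] at hg
    have := hind (g 0) (g 1) (g 2) (g 3) (g 4) (by simpa using hg)
    obtain ⟨h0, h1, h2, h3, h4⟩ := this
    intro i
    fin_cases i
    · exact h0
    · exact h1
    · exact h2
    · exact h3
    · exact h4
  have hsp := hli.span_eq_top_of_card_eq_finrank' (by simp)
  have hx : x ∈ Submodule.span ℝ (Set.range (![D0, D1, D2, D3, N] : Fin 5 → V)) := by
    rw [hsp]; trivial
  rw [Submodule.mem_span_range_iff_exists_fun] at hx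
  obtain ⟨g, hg⟩ := hx
  rw [Fin.sum_univ_five] at hg
  exact ⟨g 0, g 1, g 2, g 3, g 4, by simpa using hg.symm⟩

theorem no_sym (Y : Fin 16 → V) (hface : ∀ A : Set (Fin 16), Closed A → Exposed Y A)
    (Tr Ts Tt : V ≃ᵃ[ℝ] V) (hr : ∀ i, Tr (Y i) = Y (rF i)) (hs : ∀ i, Ts (Y i) = Y (sF i))
    (ht : ∀ i, Tt (Y i) = Y (tF i)) : False := by
  have hL := lin_sub Tr Y rF hr
  have hS := lin_sub Ts Y sF hs
  have hM := lin_sub Tt Y tF ht
  generalize (Tr : V →ᵃ[ℝ] V).linear = L at hL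
  generalize (Ts : V →ᵃ[ℝ] V).linear = S at hS
  generalize (Tt : V →ᵃ[ℝ] V).linear = M at hM
  have hind := indep Y hface
  obtain ⟨D0, hD0⟩ : ∃ D, D = Y 0 - Y 4 := ⟨_, rfl⟩
  obtain ⟨D1, hD1⟩ : ∃ D, D = Y 1 - Y 5 := ⟨_, rfl⟩
  obtain ⟨D2, hD2⟩ : ∃ D, D = Y 2 - Y 6 := ⟨_, rfl⟩
  obtain ⟨D3, hD3⟩ : ∃ D, D = Y 3 - Y 7 := ⟨_, rfl⟩
  obtain ⟨N, hN⟩ : ∃ D, D = (Y 0 - Y 8) + (Y 1 - Y 9) + (Y 2 - Y 10) + (Y 3 - Y 11) +
    (Y 4 - Y 12) + (Y 5 - Y 13) + (Y 6 - Y 14) + (Y 7 - Y 15) := ⟨_, rfl⟩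
  rw [← hD0, ← hD1, ← hD2, ← hD3, ← hN] at hind
  have hco := exists_coords D0 D1 D2 D3 N hind
  obtain ⟨E0, hE0⟩ : ∃ D, D = Y 8 - Y 12 := ⟨_, rfl⟩
  obtain ⟨E1, hE1⟩ : ∃ D, D = Y 9 - Y 13 := ⟨_, rfl⟩
  obtain ⟨E2, hE2⟩ : ∃ D, D = Y 10 - Y 14 := ⟨_, rfl⟩
  obtain ⟨E3, hE3⟩ : ∃ D, D = Y 11 - Y 15 := ⟨_, rfl⟩
  -- the action of L
  have LD0 : L D0 = D1 := by rw [hD0, hL, hD1]; rfl
  have LD1 : L D1 = D2 := by rw [hD1, hL, hD2]; rfl
  have LD2 : L D2 = D3 := by rw [hD2, hL, hD3]; rfl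
  have LD3 : L D3 = -D0 := by
    rw [hD3, hL, hD0]
    show Y 4 - Y 0 = _
    abel
  have LN : L N = N := by
    rw [hN]
    simp only [map_add, hL]
    show (Y 1 - Y 9) + (Y 2 - Y 10) + (Y 3 - Y 11) + (Y 4 - Y 12) + (Y 5 - Y 13) +
      (Y 6 - Y 14) + (Y 7 - Y 15) + (Y 0 - Y 8) = _
    abel
  have LE0 : L E0 = E1 := by rw [hE0, hL, hE1]; rfl
  have LE1 : L E1 = E2 := by rw [hE1, hL, hE2]; rfl
  have LE2 : L E2 = E3 := by rw [hE2, hL, hE3]; rfl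
  have LE3 : L E3 = -E0 := by
    rw [hE3, hL, hE0]
    show Y 12 - Y 8 = _
    abel
  -- the action of M
  have MD0 : M D0 = D0 := by rw [hD0, hM]; rfl
  have MD1 : M D1 = D3 := by rw [hD1, hM, hD3]; rfl
  have MD2 : M D2 = -D2 := by
    rw [hD2, hM]
    show Y 6 - Y 2 = _
    abel
  have MD3 : M D3 = D1 := by rw [hD3, hM, hD1]; rfl
  have ME0 : M E0 = -E2 := by
    rw [hE0, hM, hE2]
    show Y 14 - Y 10 = _
    abel
  -- the action of S
  have SD0 : S D0 = E0 := by rw [hD0, hS, hE0]; rfl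
  have SD2 : S D2 = -E2 := by
    rw [hD2, hS, hE2]
    show Y 14 - Y 10 = _
    abel
  have SD3 : S D3 = E1 := by rw [hD3, hS, hE1]; rfl
  have SE0 : S E0 = D0 := by rw [hE0, hS, hD0]; rfl
  -- coordinates of E0
  obtain ⟨q0, q1, q2, q3, b, hq⟩ := hco E0
  have hE1' : E1 = q0 • D1 + q1 • D2 + q2 • D3 - q3 • D0 + b • N := by
    rw [← LE0, hq]
    simp only [map_add, map_smul, LD0, LD1, LD2, LD3, LN]
    module
  have hE2' : E2 = q0 • D2 + q1 • D3 - q2 • D0 - q3 • D1 + b • N := by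
    rw [← LE1, hE1']
    simp only [map_add, map_sub, map_smul, LD0, LD1, LD2, LD3, LN]
    module
  have hE3' : E3 = q0 • D3 - q1 • D0 - q2 • D1 - q3 • D2 + b • N := by
    rw [← LE2, hE2']
    simp only [map_add, map_sub, map_smul, LD0, LD1, LD2, LD3, LN]
    module
  have hE4' : -E0 = -(q0 • D0) - q1 • D1 - q2 • D2 - q3 • D3 + b • N := by
    rw [← LE3, hE3']
    simp only [map_add, map_sub, map_smul, LD0, LD1, LD2, LD3, LN]
    module
  have hb : b = 0 := by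
    have h : (0 : ℝ) • D0 + (0 : ℝ) • D1 + (0 : ℝ) • D2 + (0 : ℝ) • D3 + (2 * b) • N = 0 := by
      have h2 : E0 + -E0 = 0 := by abel
      rw [hE4', hq] at h2
      rw [← h2]
      module
    have := (hind 0 0 0 0 (2 * b) h).2.2.2.2
    linarith
  subst hb
  have hMq : (q0 - q2) • D0 + (0 : ℝ) • D1 + (q0 - q2) • D2 + (2 * q1) • D3 + (0 : ℝ) • N = 0 := by
    have h := ME0
    rw [hq] at h
    simp only [map_add, map_smul, MD0, MD1, MD2, MD3, zero_smul, map_zero, add_zero] at h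
    have h2 : q0 • D0 + q1 • D3 + q2 • -D2 + q3 • D1 + E2 = 0 := by
      rw [h]; abel
    rw [hE2'] at h2
    rw [← h2]
    module
  obtain ⟨c1, -, -, c2, -⟩ := hind _ _ _ _ _ hMq
  have hq2 : q2 = q0 := by linarith
  have hq1 : q1 = 0 := by linarith
  subst hq2 hq1
  have hSq : (2 * q2 ^ 2 - q3 ^ 2 - 1) • D0 + (2 * q2 * q3) • D1 + (0 : ℝ) • D2 +
      (2 * q2 * q3) • D3 + (0 : ℝ) • N = 0 := by
    have h := SE0
    rw [hq] at h
    simp only [map_add, map_smul, SD0, SD2, SD3, zero_smul, map_zero, add_zero] at h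
    have h2 : q2 • E0 + q2 • -E2 + q3 • E1 - D0 = 0 := by
      rw [h]; abel
    rw [hE2', hE1', hq] at h2
    rw [← h2]
    module
  obtain ⟨c3, c4, -, -, -⟩ := hind _ _ _ _ _ hSq
  have hq0 : q2 ≠ 0 := by
    rintro rfl
    nlinarith
  have hq3 : q3 = 0 := by
    rcases mul_eq_zero.1 c4 with h | h
    · exact absurd (by linarith) hq0
    · exact h
  subst hq3
  have hqq : 2 * q2 * q2 = 1 := by nlinarith
  -- the vectors Z
  obtain ⟨Z0, hZ0⟩ : ∃ D, D = (Y 0 - Y 1) + (Y 4 - Y 5) := ⟨_, rfl⟩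
  obtain ⟨Z1, hZ1⟩ : ∃ D, D = (Y 1 - Y 2) + (Y 5 - Y 6) := ⟨_, rfl⟩
  obtain ⟨Z2, hZ2⟩ : ∃ D, D = (Y 2 - Y 3) + (Y 6 - Y 7) := ⟨_, rfl⟩
  obtain ⟨Z3, hZ3⟩ : ∃ D, D = (Y 3 - Y 4) + (Y 7 - Y 0) := ⟨_, rfl⟩
  obtain ⟨W0, hW0⟩ : ∃ D, D = (Y 8 - Y 11) + (Y 12 - Y 15) := ⟨_, rfl⟩
  obtain ⟨W1, hW1⟩ : ∃ D, D = (Y 9 - Y 12) + (Y 13 - Y 8) := ⟨_, rfl⟩
  have LZ0 : L Z0 = Z1 := by rw [hZ0, map_add, hL, hL, hZ1]; rfl
  have LZ1 : L Z1 = Z2 := by rw [hZ1, map_add, hL, hL, hZ2]; rfl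
  have LZ2 : L Z2 = Z3 := by rw [hZ2, map_add, hL, hL, hZ3]; rfl
  have LZ3 : L Z3 = Z0 := by
    rw [hZ3, map_add, hL, hL, hZ0]
    show (Y 4 - Y 5) + (Y 0 - Y 1) = _
    abel
  have SZ0 : S Z0 = W0 := by rw [hZ0, map_add, hS, hS, hW0]; rfl
  have LW0 : L W0 = W1 := by rw [hW0, map_add, hL, hL, hW1]; rfl
  obtain ⟨z0, z1, z2, z3, z, hz⟩ := hco Z0
  have hz1 : Z1 = z0 • D1 + z1 • D2 + z2 • D3 - z3 • D0 + z • N := by
    rw [← LZ0, hz]
    simp only [map_add, map_smul, LD0, LD1, LD2, LD3, LN]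
    module
  have hz2 : Z2 = z0 • D2 + z1 • D3 - z2 • D0 - z3 • D1 + z • N := by
    rw [← LZ1, hz1]
    simp only [map_add, map_sub, map_smul, LD0, LD1, LD2, LD3, LN]
    module
  have hz3 : Z3 = z0 • D3 - z1 • D0 - z2 • D1 - z3 • D2 + z • N := by
    rw [← LZ2, hz2]
    simp only [map_add, map_sub, map_smul, LD0, LD1, LD2, LD3, LN]
    module
  have hz4 : Z0 = -(z0 • D0) - z1 • D1 - z2 • D2 - z3 • D3 + z • N := by
    rw [← LZ3, hz3]
    simp only [map_add, map_sub, map_smul, LD0, LD1, LD2, LD3, LN]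
    module
  have hzz : (2 * z0) • D0 + (2 * z1) • D1 + (2 * z2) • D2 + (2 * z3) • D3 + (0 : ℝ) • N = 0 := by
    have h2 : Z0 - Z0 = 0 := by abel
    nth_rewrite 1 [hz] at h2
    rw [hz4] at h2
    rw [← h2]
    module
  obtain ⟨d0, d1, d2, d3, -⟩ := hind _ _ _ _ _ hzz
  have hzn : (0 : ℝ) • D0 + (0 : ℝ) • D1 + (0 : ℝ) • D2 + (0 : ℝ) • D3 + (4 * z) • N = 0 := by
    have h2 : Z0 + Z1 + Z2 + Z3 = 0 := by
      rw [hZ0, hZ1, hZ2, hZ3]; abel
    rw [hz, hz1, hz2, hz3] at h2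
    have e0 : z0 = 0 := by linarith
    have e1 : z1 = 0 := by linarith
    have e2 : z2 = 0 := by linarith
    have e3 : z3 = 0 := by linarith
    subst e0 e1 e2 e3
    rw [← h2]
    module
  have d4 := (hind _ _ _ _ _ hzn).2.2.2.2
  have Z0z : Z0 = 0 := by
    have e0 : z0 = 0 := by linarith
    have e1 : z1 = 0 := by linarith
    have e2 : z2 = 0 := by linarith
    have e3 : z3 = 0 := by linarith
    have e4 : z = 0 := by linarith
    rw [hz, e0, e1, e2, e3, e4]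
    simp
  have Z1z : Z1 = 0 := by rw [← LZ0, Z0z, map_zero]
  have Z2z : Z2 = 0 := by rw [← LZ1, Z1z, map_zero]
  have W0z : W0 = 0 := by rw [← SZ0, Z0z, map_zero]
  have W1z : W1 = 0 := by rw [← LW0, W0z, map_zero]
  -- the key relation
  have key : (Y 0 - Y 1) + (Y 2 - Y 3) = (2 * q2) • (Y 8 - Y 9) := by
    have h1 : (2 : ℝ) • ((Y 0 - Y 1) + (Y 2 - Y 3)) = D0 + D2 - D1 - D3 := by
      have : (2 : ℝ) • ((Y 0 - Y 1) + (Y 2 - Y 3)) = D0 + D2 - D1 - D3 + (Z0 + Z2) := by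
        rw [hD0, hD1, hD2, hD3, hZ0, hZ2]
        module
      rw [this, Z0z, Z2z]
      simp
    have h2 : (2 : ℝ) • (Y 8 - Y 9) = E0 - E1 := by
      have : (2 : ℝ) • (Y 8 - Y 9) = E0 - E1 - W1 := by
        rw [hE0, hE1, hW1]
        module
      rw [this, W1z]
      simp
    have h3 : (2 * q2) • E0 = D0 + D2 := by
      rw [hq]
      have : (2 * q2) • (q2 • D0 + (0 : ℝ) • D1 + q2 • D2 + (0 : ℝ) • D3 + (0 : ℝ) • N) =
        (2 * q2 * q2) • (D0 + D2) := by module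
      rw [this, hqq, one_smul]
    have h4 : (2 * q2) • E1 = D1 + D3 := by
      rw [← LE0, ← map_smul, h3, map_add, LD0, LD2]
    have h5 : (2 : ℝ) • ((Y 0 - Y 1) + (Y 2 - Y 3)) = (2 : ℝ) • ((2 * q2) • (Y 8 - Y 9)) := by
      rw [h1, smul_comm, h2, smul_sub, h3, h4]
      abel
    have h6 := congrArg (fun x => (2⁻¹ : ℝ) • x) h5
    simpa [smul_smul] using h6
  rcases lt_or_gt_of_ne hq0 with hneg | hpos
  · obtain ⟨l, c, h1, h2⟩ := hface _ (closed_of_closedB _ a028_check)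
    have hlt : ∀ i, a028 i = false → l (Y i) < c := fun i hi =>
      lt_of_le_of_ne (h1 i) (fun hc => by
        have := (h2 i).2 hc
        simp only [Set.mem_ofPred_eq] at this
        rw [hi] at this
        exact absurd this (by simp))
    have e0 := (h2 0).1 (by decide)
    have e2 := (h2 2).1 (by decide)
    have e8 := (h2 8).1 (by decide)
    have e1 := hlt 1 (by decide)
    have e3 := hlt 3 (by decide)
    have e9 := hlt 9 (by decide)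
    have hk := congrArg l key
    simp only [map_add, map_sub, map_smul, smul_eq_mul, e0, e2, e8] at hk
    nlinarith
  · obtain ⟨l, c, h1, h2⟩ := hface _ (closed_of_closedB _ a138_check)
    have hlt : ∀ i, a138 i = false → l (Y i) < c := fun i hi =>
      lt_of_le_of_ne (h1 i) (fun hc => by
        have := (h2 i).2 hc
        simp only [Set.mem_ofPred_eq] at this
        rw [hi] at this
        exact absurd this (by simp))
    have e1 := (h2 1).1 (by decide)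
    have e3 := (h2 3).1 (by decide)
    have e8 := (h2 8).1 (by decide)
    have e0 := hlt 0 (by decide)
    have e2 := hlt 2 (by decide)
    have e9 := hlt 9 (by decide)
    have hk := congrArg l key
    simp only [map_add, map_sub, map_smul, smul_eq_mul, e1, e3, e8] at hk
    nlinarith

end Pool.Agent.MP_3f311b_co
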